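import Pool.Agent.helper67.RG.Spec

/-! Row rg:GRD. -/

namespace Pool.Agent.RG.GRD

open Pool.Agent.RG

theorem GRD : GRD_stmt := by
  intro F M _ _ _ f htop w
  classical
  let A : F → Submodule F M := fun χ => f.maxGenEigenspace χ
  have hind : iSupIndep A := f.independent_maxGenEigenspace
  have hint : DirectSum.IsInternal A :=
    (DirectSum.isInternal_submodule_iff_iSupIndep_and_iSup_eq_top A).2 ⟨hind, htop⟩
  let e : (DirectSum F fun χ => A χ) ≃ₗ[F] M :=
    LinearEquiv.ofBijective (DirectSum.coeLinearMap A) hint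
  let T : (DirectSum F fun χ => A χ) →ₗ[F] M :=
    DirectSum.toModule F F M (fun χ => w χ • (A χ).subtype)
  refine ⟨T ∘ₗ e.symm.toLinearMap, fun χ x hx => ?_⟩
  have h1 : e (DirectSum.lof F F (fun χ => A χ) χ ⟨x, hx⟩) = x := by
    change DirectSum.coeLinearMap A _ = x
    rw [DirectSum.coeLinearMap_lof]
  have h2 : e.symm x = DirectSum.lof F F (fun χ => A χ) χ ⟨x, hx⟩ := by
    rw [LinearEquiv.symm_apply_eq, h1]
  change T (e.symm x) = w χ • x
  rw [h2]
  change DirectSum.toModule F F M (fun χ => w χ • (A χ).subtype) _ = _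
  rw [DirectSum.toModule_lof]
  rfl

end Pool.Agent.RG.GRD
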